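import Mathlib
import Pool.Agent.H791R2.RS.Spec
set_option autoImplicit false
open MeasureTheory Filter Set
open scoped ENNReal Topology InnerProductSpace ComplexConjugate
namespace Pool.Agent.H791R2.RS

theorem t_CORE (hPOS : S_POS) (hDA : S_DA) (hDB : S_DB) (hTAIL : S_TAIL) (hBES : S_BES)
    (hDIV : S_DIV) (hQF : S_QF) : S_CORE := by
  classical
  intro K hK
  rcases hPOS K hK with h | h | h
  · exact Or.inl h
  · exact Or.inr h
  exfalso
  set q : Y → ℝ := fun y => qf (K y) 0 with hq
  have hq01 : ∀ y, 0 ≤ q y ∧ q y ≤ 1 := fun y =>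
    ⟨(hQF (K y) (hK.closed y) 0).1, (hQF (K y) (hK.closed y) 0).2.1⟩
  have hqm : AEMeasurable q mu := hK.meas 0
  have hqi : Integrable q mu := by
    refine Integrable.of_bound hqm.aestronglyMeasurable 1 (Eventually.of_forall fun y => ?_)
    rw [Real.norm_of_nonneg (hq01 y).1]
    exact (hq01 y).2
  set α : ℝ := ∫ y, q y ∂mu with hα
  have hα0 : 0 ≤ α := integral_nonneg fun y => (hq01 y).1
  have hα1 : α < 1 := by
    have h1 : 0 < ∫ y, (1 - q y) ∂mu := by
      rw [integral_pos_iff_support_of_nonneg_ae]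
      · have h2 : mu (Function.support fun y => 1 - q y) = mu univ := by
          apply measure_congr
          filter_upwards [h 0] with y hy
          have h3 : (1 - q y) ≠ 0 := by
            have : q y < 1 := hy.2
            linarith
          exact propext ⟨fun _ => trivial, fun _ => h3⟩
        rw [h2, measure_univ]
        exact one_pos
      · exact Eventually.of_forall fun y => by
          have := (hq01 y).2
          show (0:ℝ) ≤ 1 - q y
          linarith
      · exact (integrable_const 1).sub hqi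
    rw [integral_sub (integrable_const 1) hqi] at h1
    simp only [integral_const, probReal_univ, smul_eq_mul, mul_one] at h1
    linarith
  set c : ℝ := (1 - α) / 24 with hc
  set p : ℝ := (1 - α) / 4 with hp
  have hc0 : 0 < c := by rw [hc]; linarith
  have hc1 : c ≤ 1 := by rw [hc]; linarith
  have hp0 : 0 < p := by rw [hp]; linarith
  obtain ⟨C, hC1, hDBC⟩ := hDB c hc0 hc1
  obtain ⟨δ', N1, hδ', hDB'⟩ := hDBC K hK (fun m => (h m).mono fun y hy => hy.1) p hp0
  obtain ⟨Kη, hKη, hT⟩ := hTAIL (p / 2) (by linarith)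
  let Λ : ℕ → ℕ := fun N => ⌈Kη * N * Real.log ((N : ℝ) + 2)⌉₊
  let sN : ℕ → ℕ := fun N => max 1 (C * (Λ N + N))
  have hsN : ∀ N, 1 ≤ N → sN N = C * (Λ N + N) := by
    intro N hN
    have : 1 ≤ C * (Λ N + N) := Nat.one_le_iff_ne_zero.mpr (by
      apply Nat.mul_ne_zero <;> omega)
    exact max_eq_right this
  have hδ0 : 0 < min ((1 - α) / 2) δ' := lt_min (by linarith) hδ'
  refine hDIV (fun z s => ∫ y in {y : Y | s ≤ y z}, qf (K y) 0 ∂mu) α
    (hBES q hqm (Eventually.of_forall hq01)) (c / 6) (min ((1 - α) / 2) δ') (C * (Kη + 2))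
    (max N1 2) sN (by linarith) hδ0 ?_ (fun N => le_max_left _ _) ?_ ?_
  · have : (1 : ℝ) ≤ C := by exact_mod_cast hC1
    positivity
  · intro N hN
    have hN2 : 2 ≤ N := (le_max_right _ _).trans hN
    rw [hsN N (by omega)]
    have hNr : (2 : ℝ) ≤ N := by exact_mod_cast hN2
    have hlog : 1 ≤ Real.log ((N : ℝ) + 2) := by
      rw [Real.le_log_iff_exp_le (by linarith)]
      have := Real.exp_one_lt_d9
      linarith
    have hL : (Λ N : ℝ) ≤ Kη * N * Real.log ((N : ℝ) + 2) + 1 :=
      (Nat.ceil_lt_add_one (by positivity)).le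
    have h1 : (1 : ℝ) ≤ N * Real.log ((N : ℝ) + 2) := by nlinarith
    have h2 : (N : ℝ) ≤ N * Real.log ((N : ℝ) + 2) := by nlinarith
    push_cast
    have hC0 : (0 : ℝ) ≤ C := by positivity
    calc (C : ℝ) * (Λ N + N) ≤ C * ((Kη + 2) * (N * Real.log ((N : ℝ) + 2))) := by
          apply mul_le_mul_of_nonneg_left _ hC0
          nlinarith
      _ = _ := by ring
  · intro N hN
    have hN1 : N1 ≤ N := (le_max_left _ _).trans hN
    have hN2 : 2 ≤ N := (le_max_right _ _).trans hN
    have hs1 : (0 : ℝ) < (sN N : ℝ) + 1 := by positivity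
    by_cases hcase : ((((Finset.Icc (1 : ℤ) (N / 2 : ℕ)).filter (fun x =>
        (1 + α) / 2 / ((sN N : ℝ) + 1) ≤
          ∫ y in {y : Y | sN N ≤ y (N - x)}, qf (K y) 0 ∂mu)).card : ℝ) <
            ((N / 2 : ℕ) : ℝ) / 4)
    · right
      have hd := hDA K hK N (sN N) α hN2 rfl hα1 hcase
      rw [hsN N (by omega)] at hd
      have ht := hT N (Λ N) (by omega) (Nat.le_ceil _)
      intro m hm hm'
      have hfin := hDB' N (Λ N) hN1 ht hd m hm (by
        calc (m : ℝ) ≤ c / 6 * N := hm'
          _ = c * N / 6 := by ring)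
      rw [hsN N (by omega)]
      refine hfin.trans ?_
      have : (0 : ℝ) < ((C * (Λ N + N) : ℕ) : ℝ) + 1 := by positivity
      apply div_le_div_of_nonneg_right _ this.le
      have := min_le_right ((1 - α) / 2) δ'
      show α - δ' ≤ _
      linarith
    · left
      push Not at hcase
      refine hcase.trans ?_
      have hsub : (Finset.Icc (1 : ℤ) (N / 2 : ℕ)).filter (fun x =>
          (1 + α) / 2 / ((sN N : ℝ) + 1) ≤
            ∫ y in {y : Y | sN N ≤ y (N - x)}, qf (K y) 0 ∂mu) ⊆
          (Finset.Icc (1 : ℤ) (N / 2 : ℕ)).filter (fun x =>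
          (α + min ((1 - α) / 2) δ') / ((sN N : ℝ) + 1) ≤
            ∫ y in {y : Y | sN N ≤ y (N - x)}, qf (K y) 0 ∂mu) := by
        intro x hx
        rw [Finset.mem_filter] at hx ⊢
        refine ⟨hx.1, le_trans ?_ hx.2⟩
        apply div_le_div_of_nonneg_right _ hs1.le
        have := min_le_left ((1 - α) / 2) δ'
        linarith
      exact_mod_cast Finset.card_le_card hsub

end Pool.Agent.H791R2.RS
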