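import Mathlib
import Pool.Agent.H791R2.RS.Spec
set_option autoImplicit false
open MeasureTheory Filter Set
open scoped ENNReal Topology InnerProductSpace ComplexConjugate
namespace Pool.Agent.H791R2.RS

namespace ERG968

theorem thm : S_THM := by
  constructor
  · refine ⟨measurable_pi_lambda _ fun k => measurable_pi_apply _, ?_⟩
    have := Measure.map_infinitePi_infinitePi_of_inj (P := fun _ : ℤ => nu)
      (f := fun n : ℤ => n + 1) (add_left_injective 1)
    exact this
  · refine ⟨measurable_pi_lambda _ fun k => measurable_pi_apply _, ?_⟩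
    have := Measure.map_infinitePi_infinitePi_of_inj (P := fun _ : ℤ => nu)
      (f := fun n : ℤ => n - 1) (sub_left_injective)
    exact this

theorem iter (n : ℕ) (y : Y) (k : ℤ) : (th^[n] y) k = y (k + n) := by
  induction n generalizing y with
  | zero => simp
  | succ n ih =>
    rw [Function.iterate_succ_apply, ih]
    show y (k + n + 1) = y (k + ((n + 1 : ℕ) : ℤ))
    congr 1; push_cast; ring

theorem alg : IsSetAlgebra (measurableCylinders (fun _ : ℤ => ℕ)) where
  empty_mem := empty_mem_measurableCylinders _
  compl_mem := fun _ h => compl_mem_measurableCylinders h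
  union_mem := fun _ _ h h' => union_mem_measurableCylinders h h'

/-- mixing for cylinders -/
theorem mix (B : Set Y) (hB : B ∈ measurableCylinders (fun _ : ℤ => ℕ)) :
    ∃ n : ℕ, mu.real (B ∩ th^[n] ⁻¹' B) = mu.real B * mu.real B := by
  obtain ⟨s, S, hS, rfl⟩ := (mem_measurableCylinders B).mp hB
  obtain ⟨R, hR⟩ : ∃ R : ℕ, ∀ i ∈ s, |i| ≤ R := by
    refine ⟨s.sup (fun i => i.natAbs), fun i hi => ?_⟩
    have := Finset.le_sup (f := fun i : ℤ => i.natAbs) hi
    rw [Int.abs_eq_natAbs]
    exact_mod_cast this
  let n : ℕ := 2 * R + 1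
  let T : Finset ℤ := s.image (fun i => i + n)
  have hdisj : Disjoint s T := by
    rw [Finset.disjoint_left]
    intro i hi hiT
    obtain ⟨j, hj, hji⟩ := Finset.mem_image.mp hiT
    have h1 := hR i hi
    have h2 := hR j hj
    rw [abs_le] at h1 h2
    simp only [n] at hji
    push_cast at hji
    omega
  have hind : ProbabilityTheory.iIndepFun (fun (i : ℤ) (y : Y) => y i) mu :=
    ProbabilityTheory.iIndepFun_infinitePi (P := fun _ : ℤ => nu) (X := fun _ x => x) (by fun_prop)
  have hind2 := hind.indepFun_finset s T hdisj (fun i => measurable_pi_apply i)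
  let ρ : (T → ℕ) → (s → ℕ) := fun w i => w ⟨i + n, Finset.mem_image_of_mem _ i.2⟩
  have hρ : Measurable ρ := measurable_pi_lambda _ fun k => measurable_pi_apply _
  have hpre : th^[n] ⁻¹' (cylinder s S) = (fun (y : Y) (i : T) => y i) ⁻¹' (ρ ⁻¹' S) := by
    ext y
    simp only [mem_preimage, mem_cylinder]
    have : (s.restrict (th^[n] y)) = ρ (fun i : T => y i) := by
      funext i
      show (th^[n] y) i = y (i + n)
      rw [iter]
    rw [this]
  have hcyl : (cylinder s S : Set Y) = (fun (y : Y) (i : s) => y i) ⁻¹' S := rfl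
  refine ⟨n, ?_⟩
  have h1 := hind2.measure_inter_preimage_eq_mul S (ρ ⁻¹' S) hS (hρ hS)
  have h2 : mu (th^[n] ⁻¹' (cylinder s S)) = mu (cylinder s S) :=
    (thm.1.iterate n).measure_preimage ((hS.cylinder).nullMeasurableSet)
  rw [measureReal_def, measureReal_def, ← ENNReal.toReal_mul]
  congr 1
  rw [hpre, hcyl, h1, ← hpre, h2, ← hcyl]

theorem real_diff (A B : Set Y) (hA : MeasurableSet A) (hB : MeasurableSet B) :
    |mu.real A - mu.real B| ≤ mu.real (symmDiff A B) := by
  have h1 : mu.real A ≤ mu.real B + mu.real (symmDiff A B) := by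
    calc mu.real A ≤ mu.real (B ∪ symmDiff A B) := measureReal_mono (by
          intro x hx
          by_cases h : x ∈ B
          · exact Or.inl h
          · exact Or.inr (Or.inl ⟨hx, h⟩)) (measure_ne_top _ _)
      _ ≤ _ := measureReal_union_le _ _
  have h2 : mu.real B ≤ mu.real A + mu.real (symmDiff A B) := by
    calc mu.real B ≤ mu.real (A ∪ symmDiff A B) := measureReal_mono (by
          intro x hx
          by_cases h : x ∈ A
          · exact Or.inl h
          · exact Or.inr (Or.inr ⟨hx, h⟩)) (measure_ne_top _ _)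
      _ ≤ _ := measureReal_union_le _ _
  rw [abs_le]
  constructor <;> linarith

theorem main : S_ERG := by
  refine ⟨thm.1, ⟨?_⟩⟩
  intro A hA hinv
  have hit : ∀ n : ℕ, th^[n] ⁻¹' A = A := by
    intro n
    induction n with
    | zero => simp
    | succ n ih => rw [Function.iterate_succ, preimage_comp, ih, hinv]
  have hdense := Measure.MeasureDense.of_generateFrom_isSetAlgebra_finite (μ := mu) alg
    (generateFrom_measurableCylinders (α := fun _ : ℤ => ℕ)).symm
  have key : ∀ ε : ℝ, 0 < ε → |mu.real A - mu.real A * mu.real A| ≤ 5 * ε := by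
    intro ε hε
    obtain ⟨B, hB, hAB⟩ := hdense.approx A hA (measure_ne_top _ _) ε hε
    have hBm : MeasurableSet B := hdense.measurable B hB
    obtain ⟨n, hn⟩ := mix B hB
    have h0 : mu.real (symmDiff A B) ≤ ε := by
      rw [measureReal_def]
      exact ENNReal.toReal_le_of_le_ofReal hε.le hAB.le
    have h1 := real_diff A B hA hBm
    have hthm : Measurable (th^[n]) := (thm.1.iterate n).measurable
    have h2 := real_diff A (B ∩ th^[n] ⁻¹' B) hA (hBm.inter (hthm hBm))
    have h3 : mu.real (symmDiff A (B ∩ th^[n] ⁻¹' B)) ≤ ε + ε := by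
      have hsub : symmDiff A (B ∩ th^[n] ⁻¹' B) ⊆ symmDiff A B ∪ th^[n] ⁻¹' (symmDiff A B) := by
        intro x hx
        have hxA : x ∈ A ↔ th^[n] x ∈ A := by
          have : x ∈ th^[n] ⁻¹' A ↔ x ∈ A := by rw [hit n]
          exact this.symm
        simp only [mem_symmDiff, mem_union, mem_inter_iff, mem_preimage] at hx ⊢
        tauto
      calc mu.real (symmDiff A (B ∩ th^[n] ⁻¹' B)) ≤
          mu.real (symmDiff A B ∪ th^[n] ⁻¹' (symmDiff A B)) :=
            measureReal_mono hsub (measure_ne_top _ _)
        _ ≤ mu.real (symmDiff A B) + mu.real (th^[n] ⁻¹' (symmDiff A B)) :=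
            measureReal_union_le _ _
        _ = mu.real (symmDiff A B) + mu.real (symmDiff A B) := by
            rw [(thm.1.iterate n).measureReal_preimage (hA.symmDiff hBm).nullMeasurableSet]
        _ ≤ ε + ε := by linarith
    have hA0 : 0 ≤ mu.real A := measureReal_nonneg
    have hA1 : mu.real A ≤ 1 := measureReal_le_one
    have hB0 : 0 ≤ mu.real B := measureReal_nonneg
    have hB1 : mu.real B ≤ 1 := measureReal_le_one
    rw [hn] at h2
    have h4 : |mu.real B * mu.real B - mu.real A * mu.real A| ≤ 2 * ε := by
      have : mu.real B * mu.real B - mu.real A * mu.real A =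
        -((mu.real A - mu.real B) * (mu.real A + mu.real B)) := by ring
      rw [this, abs_neg, abs_mul]
      have h5 : |mu.real A + mu.real B| ≤ 2 := by rw [abs_le]; constructor <;> linarith
      calc _ ≤ ε * 2 := mul_le_mul (h1.trans h0) h5 (abs_nonneg _) hε.le
        _ = _ := by ring
    have h6 : mu.real A - mu.real A * mu.real A = (mu.real A - mu.real B * mu.real B) +
      (mu.real B * mu.real B - mu.real A * mu.real A) := by ring
    rw [h6]
    calc _ ≤ _ := abs_add_le _ _
      _ ≤ 5 * ε := by linarith [h2.trans h3]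
  have hzero : mu.real A - mu.real A * mu.real A = 0 := by
    by_contra h
    have hpos := abs_pos.mpr h
    have := key (|mu.real A - mu.real A * mu.real A| / 10) (by positivity)
    linarith
  have hcases : mu.real A = 0 ∨ mu.real A = 1 := by
    have : mu.real A * (1 - mu.real A) = 0 := by linarith
    rcases mul_eq_zero.mp this with h | h
    · exact Or.inl h
    · exact Or.inr (by linarith)
  rw [eventuallyConst_set']
  rcases hcases with h | h
  · left
    rw [measureReal_def, ENNReal.toReal_eq_zero_iff] at h
    rcases h with h | h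
    · exact ae_eq_empty.mpr h
    · exact absurd h (measure_ne_top _ _)
  · right
    rw [measureReal_def] at h
    have h1 : mu A = 1 := by
      rw [← ENNReal.ofReal_toReal (measure_ne_top mu A), h, ENNReal.ofReal_one]
    rw [ae_eq_univ]
    exact (prob_compl_eq_zero_iff hA).mpr h1

end ERG968

theorem t_ERG : S_ERG := ERG968.main

theorem t_THM : S_THM := ERG968.thm

end Pool.Agent.H791R2.RS
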