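import Mathlib
import Pool.Agent.H791R2.RS.Spec
set_option autoImplicit false
open MeasureTheory Filter Set
open scoped ENNReal Topology InnerProductSpace ComplexConjugate
namespace Pool.Agent.H791R2.RS

theorem t_FIB3 (hQPR : S_QPR) : S_FIB3 := by
  intro K hK F hF h1 h2
  have : CompleteSpace K := hK.completeSpace_coe
  have hsub : ∀ f g : H, ∀ᵐ y ∂mu, ((f - g : H) : Y → E) y = (f : Y → E) y - (g : Y → E) y := by
    intro f g
    filter_upwards [Lp.coeFn_sub f g] with y hy
    rw [hy]; rfl
  constructor
  · intro m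
    let e : H := cst (ee m)
    have he : ∀ᵐ y ∂mu, (e : Y → E) y = ee m := MemLp.coeFn_toLp _
    let p : H := K.starProjection e
    have hp : p ∈ K := Submodule.starProjection_apply_mem K e
    have hp' : e - p ∈ Kᗮ := Submodule.sub_starProjection_mem_orthogonal e
    have hae : (fun y => qf (F y) m) =ᵐ[mu] fun y => ‖(p : Y → E) y‖ ^ 2 := by
      filter_upwards [h1 p hp, h2 _ hp', hsub e p, he] with y ha hb hc hd
      rw [hc, hd] at hb
      exact hQPR (F y) _ m ha hb
    refine AEMeasurable.congr ?_ hae.symm
    exact ((Lp.aestronglyMeasurable p).norm.aemeasurable).pow_const 2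
  · intro g hg
    let p : H := K.starProjection g
    have hp : p ∈ K := Submodule.starProjection_apply_mem K g
    have hp' : g - p ∈ Kᗮ := Submodule.sub_starProjection_mem_orthogonal g
    have hz : ∀ᵐ y ∂mu, ((g - p : H) : Y → E) y = 0 := by
      filter_upwards [hg, h1 p hp, h2 _ hp', hsub g p] with y ha hb hc hd
      have hm : ((g - p : H) : Y → E) y ∈ F y := by
        rw [hd]; exact (F y).sub_mem ha hb
      exact inner_self_eq_zero (𝕜 := ℂ).mp ((F y).inner_right_of_mem_orthogonal hm hc)
    have hz2 : g - p = 0 := by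
      apply Lp.ext
      filter_upwards [hz, Lp.coeFn_zero E 2 mu] with y hy hy'
      rw [hy, hy']; rfl
    rw [sub_eq_zero] at hz2
    rw [hz2]; exact hp

end Pool.Agent.H791R2.RS
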