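import Mathlib
import Pool.Agent.H791R2.RS.Spec
set_option autoImplicit false
open MeasureTheory Filter Set
open scoped ENNReal Topology InnerProductSpace ComplexConjugate
namespace Pool.Agent.H791R2.RS

theorem t_VLA (hMOP : S_MOP) (hWC : S_WC) (hCOM : S_COM) (hTHM : S_THM) : S_VLA := by
  have hid : Measure.QuasiMeasurePreserving (id : Y → Y) mu mu := Measure.QuasiMeasurePreserving.id mu
  have hth : Measure.QuasiMeasurePreserving th mu mu := hTHM.1.quasiMeasurePreserving
  have hmap : mu.map (id : Y → Y) ≤ (1 : ℝ≥0∞) • mu := by simp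
  -- commutation with `IsM`
  have hM : ∀ (x : H →L[ℂ] H) (a : Y → E →L[ℂ] E), IsO x a id → ∀ A, IsM A → A * x = x * A := by
    rintro x a hx A ⟨φ, C, _, _, hA⟩
    refine hCOM A x _ a id id hid hid hA hx (Eventually.of_forall fun y v => ?_)
      (Eventually.of_forall fun y => rfl)
    simp
  have hU : ∀ (x : H →L[ℂ] H) (a : Y → E →L[ℂ] E), IsO x a id →
      (∀ y v, opS (a (th y) v) = a y (opS v)) → ∀ U, IsO U (fun _ => opS) th → U * x = x * U := by
    intro x a hx ha U hU
    refine hCOM U x _ a th id hth hid hU hx (Eventually.of_forall fun y v => ?_)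
      (Eventually.of_forall fun y => rfl)
    exact ha y v
  refine ⟨?_, ?_, ?_⟩
  · intro φ C hφ hC
    have hmeas : ∀ n : ℤ, Measurable (fun y : Y => φ (fun k => y (k + n))) := fun n =>
      hφ.comp (measurable_pi_lambda _ fun k => measurable_pi_apply _)
    have hb : ∀ (y : Y) (n : ℤ), ‖φ (fun k => y (k + n))‖ ≤ C := fun y n => hC _
    obtain ⟨A, hA⟩ := hWC (fun y => opE (fun n => φ (fun k => y (k + n))) 0) C id 1
      (fun y => opE_norm _ _ C (hb y)) (hMOP (fun y n => φ (fun k => y (k + n))) C 0 hmeas hb)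
      measurable_id (by simp) hmap
    refine ⟨A, hA, hM A _ hA, hU A _ hA ?_⟩
    intro y v
    ext n
    rw [opS_apply, opE_apply _ _ C (hb (th y)), opE_apply _ _ C (hb y), opS_apply]
    simp only [sub_zero]
    congr 2
    funext k
    show y (k + (n - 1) + 1) = y (k + n)
    congr 1; ring
  · obtain ⟨A, hA⟩ := hWC (fun _ => opS) 1 id 1
      (fun y => opE_norm _ _ 1 (by simp)) (fun v => stronglyMeasurable_const)
      measurable_id (by simp) hmap
    exact ⟨A, hA, hM A _ hA, hU A _ hA fun y v => rfl⟩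
  · intro T hT
    refine ⟨hM T _ hT, hU T _ hT ?_⟩
    intro y v
    ext n
    rw [opS_apply, opT_apply, opT_apply, opS_apply]
    show ((Real.exp (-((y (n - 1 - 1 + 1) : ℕ) : ℝ)) : ℝ) : ℂ) * _ = _
    rw [sub_add_cancel]

end Pool.Agent.H791R2.RS
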